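import Mathlib

/-!
# Every number field has extensions of every degree
-/

set_option autoImplicit false

open Polynomial NumberField

namespace Pool.Agent.U689.NF

/-- There is a subfield of the algebraic closure of every degree. -/
theorem exists_degree (K : Type) [Field K] [NumberField K] (k : ℕ) (hk : 1 ≤ k) :
    ∃ M : IntermediateField K (AlgebraicClosure K), Module.finrank K M = k := by
  obtain ⟨P, hP⟩ := Ideal.exists_maximal (𝓞 K)
  have hP0 : P ≠ ⊥ := Ring.ne_bot_of_isMaximal_of_not_isField hP (RingOfIntegers.not_isField K)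
  obtain ⟨a, ha1, ha2⟩ : ∃ a ∈ P ^ 1, a ∉ P ^ (1 + 1) :=
    Ideal.exists_mem_pow_notMem_pow_succ P hP0 hP.ne_top 1
  rw [pow_one] at ha1
  have hmon : (X ^ k - C a : (𝓞 K)[X]).Monic := monic_X_pow_sub_C a (by omega)
  have hdeg : (X ^ k - C a : (𝓞 K)[X]).natDegree = k := natDegree_X_pow_sub_C
  have heis : (X ^ k - C a : (𝓞 K)[X]).IsEisensteinAt P := by
    refine ⟨?_, ?_, ?_⟩
    · rw [hmon.leadingCoeff]
      exact fun h => hP.ne_top ((Ideal.eq_top_iff_one P).2 h)
    · intro n hn
      rw [hdeg] at hn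
      rw [coeff_sub, coeff_X_pow, if_neg (by omega), coeff_C]
      split_ifs
      · rw [zero_sub]
        exact P.neg_mem ha1
      · simp
    · rw [coeff_sub, coeff_X_pow, if_neg (by omega), coeff_C_zero, zero_sub, neg_mem_iff]
      exact ha2
  have hirr : Irreducible (X ^ k - C a : (𝓞 K)[X]) :=
    heis.irreducible hP.isPrime hmon.isPrimitive (by omega)
  have hirrK : Irreducible ((X ^ k - C a : (𝓞 K)[X]).map (algebraMap (𝓞 K) K)) :=
    (hmon.irreducible_iff_irreducible_map_fraction_map).1 hirr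
  have hmonK : ((X ^ k - C a : (𝓞 K)[X]).map (algebraMap (𝓞 K) K)).Monic := hmon.map _
  have hdegK : ((X ^ k - C a : (𝓞 K)[X]).map (algebraMap (𝓞 K) K)).natDegree = k := by
    rw [hmon.natDegree_map, hdeg]
  obtain ⟨α, hα⟩ := IsAlgClosed.exists_aeval_eq_zero (AlgebraicClosure K)
    ((X ^ k - C a : (𝓞 K)[X]).map (algebraMap (𝓞 K) K)) (by
      intro h
      have h1 := hirrK.natDegree_pos
      have h2 := natDegree_eq_zero_iff_degree_le_zero.2 h.le
      omega)
  have hmin : minpoly K α = (X ^ k - C a : (𝓞 K)[X]).map (algebraMap (𝓞 K) K) :=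
    (minpoly.eq_of_irreducible_of_monic hirrK hα hmonK).symm
  refine ⟨IntermediateField.adjoin K {α}, ?_⟩
  rw [IntermediateField.adjoin.finrank (Algebra.IsIntegral.isIntegral α), hmin, hdegK]

end Pool.Agent.U689.NF
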