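import Pool.Agent.U689.NF.Deg
import Pool.Agent.TH444.ML.Defs

/-!
# Lower bounds for the number of extensions: quadratic extensions of a fixed extension
-/

set_option autoImplicit false

open Polynomial NumberField Filter Topology

namespace Pool.Agent.U689.NF

open Pool.Agent.TH444.ML (QS QuadLim QuadPos)

/-- The extensions of degree `n` of the number field `K` inside its algebraic closure whose
absolute discriminant has absolute value at most `X`. -/
def Fields (K : Type) [Field K] [NumberField K] (n : ℕ) (X : ℝ) :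
    Set (IntermediateField K (AlgebraicClosure K)) :=
  {L | Module.finrank K L = n ∧
    ∃ h : NumberField L, ((|@NumberField.discr L _ h| : ℤ) : ℝ) ≤ X}

theorem quad_low (hlim : QuadLim) (hpos : QuadPos) (K : Type) [Field K] [NumberField K]
    (M : IntermediateField K (AlgebraicClosure K)) [NumberField M]
    (hfin : ∀ X : ℝ, (Fields K (Module.finrank K M * 2) X).Finite) :
    ∃ c : ℝ, 0 < c ∧ ∃ X₀ : ℝ, ∀ X : ℝ, X₀ ≤ X →
      c * X ≤ (({L ∈ Fields K (Module.finrank K M * 2) X | M ≤ L}).ncard : ℝ) := by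
  obtain ⟨c, hc⟩ := hlim M (AlgebraicClosure K)
  have hc0 : 0 ≤ c := by
    refine ge_of_tendsto hc ?_
    filter_upwards [eventually_gt_atTop (0 : ℝ)] with Y hY
    positivity
  have hc1 : c ≠ 0 := by
    rintro rfl
    exact hpos M (AlgebraicClosure K) hc
  have hc2 : 0 < c := lt_of_le_of_ne hc0 (Ne.symm hc1)
  set d : ℝ := ((discr M : ℤ) : ℝ) ^ 2 with hd
  have hd0 : 0 < d := by
    have h1 : ((discr M : ℤ) : ℝ) ≠ 0 := by exact_mod_cast discr_ne_zero M
    positivity
  obtain ⟨Y₀, hY₀⟩ := eventually_atTop.1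
    ((hc.eventually (lt_mem_nhds (half_lt_self hc2))).and (eventually_gt_atTop (0 : ℝ)))
  refine ⟨c / 2 / d, by positivity, Y₀ * d, fun X hX => ?_⟩
  have hY : Y₀ ≤ X / d := (le_div_iff₀ hd0).2 hX
  obtain ⟨h1, h2⟩ := hY₀ _ hY
  rw [lt_div_iff₀ h2] at h1
  have h3 : c / 2 / d * X = c / 2 * (X / d) := by
    field_simp
  rw [h3]
  refine h1.le.trans ?_
  have hinj : Function.Injective
      (fun L : IntermediateField M (AlgebraicClosure K) => L.restrictScalars K) :=
    IntermediateField.restrictScalars_injective K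
  rw [← Set.ncard_image_of_injective _ hinj]
  have hsub : (fun L : IntermediateField M (AlgebraicClosure K) => L.restrictScalars K) ''
      QS M (AlgebraicClosure K) (X / d) ⊆
      {L ∈ Fields K (Module.finrank K M * 2) X | M ≤ L} := by
    rintro _ ⟨L, ⟨h4, h5, h6⟩, rfl⟩
    refine ⟨⟨?_, ?_⟩, ?_⟩
    · change Module.finrank K L = _
      rw [← Module.finrank_mul_finrank K M L, h4]
    · refine ⟨h5, ?_⟩
      have h7 : X / d * ((discr M : ℤ) : ℝ) ^ 2 = X := by
        rw [← hd]
        field_simp
      rw [h7] at h6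
      exact h6
    · intro x hx
      exact L.algebraMap_mem ⟨x, hx⟩
  exact_mod_cast Set.ncard_le_ncard hsub ((hfin X).subset fun L hL => hL.1)

end Pool.Agent.U689.NF
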